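import Mathlib

namespace Pool.Agent.H.MP_e19463_co

open Finset Module Submodule

variable {F : Type} [Field F] {ι α : Type} [Fintype ι] [DecidableEq α]

noncomputable def Z (c : α → ι → F) (z : ℂ) (E : Finset α) (W : Submodule F (ι → F)) : ℂ :=
  ∑ X ∈ E.powerset, (-1) ^ X.card * z ^ finrank F (W ⊔ span F (c '' X) : Submodule F (ι → F))

omit [Fintype ι] in
theorem Z_insert (c : α → ι → F) (z : ℂ) (E : Finset α) (e : α) (h : e ∉ E) (W) :
    Z c z (insert e E) W = Z c z E W - Z c z E (W ⊔ span F {c e}) := by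
  unfold Z
  rw [sum_powerset_insert h, sub_eq_add_neg, ← sum_neg_distrib]
  congr 1
  refine sum_congr rfl fun X hX => ?_
  rw [card_insert_of_notMem fun g => h (mem_powerset.1 hX g), coe_insert, Set.image_insert_eq,
    span_insert, sup_assoc]
  ring

theorem fr (Y : Submodule F (ι → F)) (i : ι) (h : ∃ y ∈ Y, y i ≠ 0) :
    finrank F Y = finrank F (Y ⊓ LinearMap.ker (LinearMap.proj (R := F) (φ := fun _ => F) i) :
      Submodule F (ι → F)) + 1 := by
  obtain ⟨y, hy, n⟩ := h
  set φ : (ι → F) →ₗ[F] F := LinearMap.proj i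
  have h1 := Module.Dual.finrank_ker_add_one_of_ne_zero (f := φ) fun e => n (by
    simpa [φ] using LinearMap.congr_fun e y)
  have h2 := finrank_sup_add_finrank_inf_eq Y (LinearMap.ker φ)
  have h3 : Y ⊔ LinearMap.ker φ = ⊤ := eq_top_iff.2 fun x _ => mem_sup.2
    ⟨(x i / y i) • y, smul_mem _ _ hy, x - (x i / y i) • y, by simp [φ, n], by simp⟩
  rw [h3, finrank_top] at h2
  omega

omit [DecidableEq α] in
theorem Z_cut (c : α → ι → F) (z : ℂ) (E : Finset α) (i : ι) (hE : ∀ e ∈ E, c e i = 0)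
    (U : Submodule F (ι → F)) (h : ∃ y ∈ U, y i ≠ 0) :
    Z c z E U = z * Z c z E (U ⊓ LinearMap.ker (LinearMap.proj (R := F) (φ := fun _ => F) i)) := by
  unfold Z
  rw [mul_sum]
  refine sum_congr rfl fun X hX => ?_
  obtain ⟨y, hy, n⟩ := h
  rw [fr _ i ⟨y, mem_sup_left hy, n⟩, sup_comm, sup_inf_assoc_of_le, sup_comm]
  · ring
  · rw [span_le]
    rintro _ ⟨e, he, rfl⟩
    exact hE e (mem_powerset.1 hX he)

theorem main (c : α → ι → F) (z : ℂ) (L : ℕ) (hz : 2 ^ (L + 1) * ‖z‖ ≤ 1) (I : Finset ι) :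
    ∀ E : Finset α, (∀ e ∈ E, c e ≠ 0 ∧ ∀ i ∉ I, c e i = 0) →
      (∀ i (D : Finset α), D ⊆ E → (∀ e ∈ D, c e i ≠ 0) → D.card ≤ L) →
      Z c z E ⊥ ≠ 0 ∧ ∀ W, (∀ w ∈ W, ∀ i ∉ I, w i = 0) → ‖Z c z E W‖ ≤ ‖Z c z E ⊥‖ := by
  classical
  induction I using Finset.strongInduction with
  | H I ih =>
  intro E h1 h2
  have step : ∀ i ∈ I, ∃ b : ℝ, 0 < b ∧ b ≤ ‖Z c z E ⊥‖ ∧
      ∀ W, (∀ w ∈ W, ∀ i ∉ I, w i = 0) → (∃ y ∈ W, y i ≠ 0) → ‖Z c z E W‖ ≤ b := by
    intro i hi
    set E' := E.filter fun e => c e i = 0 with hE'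
    obtain ⟨a1, a2⟩ := ih _ (erase_ssubset hi) E' (fun e he => ⟨(h1 e (mem_filter.1 he).1).1,
      fun j hj => by
        by_cases g : j = i
        · exact g ▸ (mem_filter.1 he).2
        · exact (h1 e (mem_filter.1 he).1).2 j fun m => hj (mem_erase.2 ⟨g, m⟩)⟩)
      fun j D hD => h2 j D (hD.trans (filter_subset _ _))
    set N := ‖Z c z E' ⊥‖
    have N0 : 0 < N := norm_pos_iff.2 a1
    have key : ∀ D : Finset α, (∀ e ∈ D, e ∈ E ∧ c e i ≠ 0) →
        ‖Z c z (D ∪ E') ⊥ - Z c z E' ⊥‖ ≤ (2 ^ D.card - 1) * (‖z‖ * N) ∧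
        ∀ W, (∀ w ∈ W, ∀ i ∉ I, w i = 0) → (∃ y ∈ W, y i ≠ 0) →
          ‖Z c z (D ∪ E') W‖ ≤ 2 ^ D.card * (‖z‖ * N) := by
      intro D
      induction D using Finset.induction_on with
      | empty =>
        refine fun _ => ⟨by simp, fun W hW hy => ?_⟩
        rw [empty_union, Z_cut c z E' i (fun e he => (mem_filter.1 he).2) W hy, norm_mul,
          card_empty, pow_zero, one_mul]
        refine mul_le_mul_of_nonneg_left (a2 _ fun w hw j hj => ?_) (norm_nonneg _)
        by_cases g : j = i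
        · exact g ▸ hw.2
        · exact hW w hw.1 j fun m => hj (mem_erase.2 ⟨g, m⟩)
      | insert e D he ihD =>
        intro hD
        obtain ⟨b1, b2⟩ := ihD fun x hx => hD x (mem_insert_of_mem hx)
        obtain ⟨e1, e2⟩ := hD e (mem_insert_self _ _)
        have n : e ∉ D ∪ E' := by simp [he, hE', e2]
        have b3 : ∀ W, (∀ w ∈ W, ∀ i ∉ I, w i = 0) →
            ‖Z c z (D ∪ E') (W ⊔ span F {c e})‖ ≤ 2 ^ D.card * (‖z‖ * N) := fun W hW =>
          b2 _ (fun w hw j hj => by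
            obtain ⟨x, hx, y, hy, rfl⟩ := mem_sup.1 hw
            obtain ⟨t, rfl⟩ := mem_span_singleton.1 hy
            simp [hW x hx j hj, (h1 e e1).2 j hj])
            ⟨c e, mem_sup_right (mem_span_singleton_self _), e2⟩
        simp only [insert_union, Z_insert c z _ e n, card_insert_of_notMem he, pow_succ]
        refine ⟨?_, fun W hW hy => (norm_sub_le _ _).trans ?_⟩
        · rw [sub_right_comm]
          refine (norm_sub_le _ _).trans ?_
          linarith [b3 ⊥ (by simp)]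
        · linarith [b2 W hW hy, b3 W hW]
    set D := E.filter fun e => ¬ c e i = 0
    obtain ⟨k1, k2⟩ := key D fun e he => mem_filter.1 he
    have u : D ∪ E' = E := by rw [union_comm]; exact filter_union_filter_not_eq _ _
    rw [u] at k1 k2
    have p : (2 : ℝ) ^ D.card * (‖z‖ * N) ≤ N / 2 := by
      have : (2 : ℝ) ^ D.card ≤ 2 ^ L := pow_le_pow_right₀ one_le_two
        (h2 i D (filter_subset _ _) fun e he => (mem_filter.1 he).2)
      have h3 := mul_le_mul_of_nonneg_right this (norm_nonneg z)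
      rw [pow_succ] at hz
      nlinarith
    refine ⟨N / 2, by positivity, ?_, fun W hW hy => (k2 W hW hy).trans p⟩
    have := norm_sub_norm_le (Z c z E' ⊥) (Z c z E ⊥)
    rw [norm_sub_rev] at k1
    nlinarith [mul_nonneg (norm_nonneg z) N0.le]
  refine ⟨?_, fun W hW => ?_⟩
  · rcases E.eq_empty_or_nonempty with rfl | ⟨e, he⟩
    · simp [Z]
    · obtain ⟨i, hi⟩ := Function.ne_iff.1 (h1 e he).1
      obtain ⟨b, b1, b2, -⟩ := step i (by_contra fun g => hi ((h1 e he).2 i g))
      exact norm_pos_iff.1 (b1.trans_le b2)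
  · by_cases g : W = ⊥
    · rw [g]
    · obtain ⟨y, hy, n⟩ := (Submodule.ne_bot_iff _).1 g
      obtain ⟨i, hi⟩ := Function.ne_iff.1 n
      obtain ⟨b, -, b2, b3⟩ := step i (by_contra fun g => hi (hW y hy i g))
      exact (b3 W hW ⟨y, hy, hi⟩).trans b2

theorem rank_eq {n : ℕ} {κ : Type} [Fintype κ] (A : Matrix ι (Fin n) F) (B : Matrix κ (Fin n) F)
    (h : span F (Set.range A) = span F (Set.range B)) (X : Set (Fin n)) :
    finrank F (span F ((fun j i => A i j) '' X)) = finrank F (span F ((fun j i => B i j) '' X)) := by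
  have k : ∀ {μ : Type} [Fintype μ] (M : Matrix μ (Fin n) F),
      finrank F (span F ((fun j i => M i j) '' X)) + finrank F (Submodule.comap
        (span F ((fun j => Pi.single j (1 : F)) '' X) : Submodule F (Fin n → F)).subtype
        (LinearMap.ker M.mulVecLin)) =
        finrank F (span F ((fun j => Pi.single j (1 : F)) '' X) : Submodule F (Fin n → F)) := by
    intro μ _ M
    rw [← LinearMap.ker_domRestrict, ← LinearMap.finrank_range_add_finrank_ker
      (M.mulVecLin.domRestrict _), LinearMap.range_domRestrict, map_span, Set.image_image]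
    have : (fun j => M.mulVecLin (Pi.single j 1)) = fun j i => M i j := by
      ext j i; simp
    rw [this]
  have m : ∀ {μ : Type} [Fintype μ] (M : Matrix μ (Fin n) F) (x), x ∈ LinearMap.ker M.mulVecLin ↔
      ∀ p ∈ span F (Set.range M), p ⬝ᵥ x = 0 := by
    intro μ _ M x
    refine ⟨fun g p hp => ?_, fun g => funext fun i => g _ (subset_span ⟨i, rfl⟩)⟩
    induction hp using span_induction with
    | mem p m => obtain ⟨i, rfl⟩ := m; exact congrFun g i
    | zero => simp
    | add p q _ _ a c => simp [a, c]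
    | smul c p _ a => simp [a]
  have e : LinearMap.ker A.mulVecLin = LinearMap.ker B.mulVecLin := by
    ext x; rw [m, m, h]
  have h1 := k A
  have h2 := k B
  rw [e] at h1
  omega

end Pool.Agent.H.MP_e19463_co
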